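import Mathlib
import Pool.Agent.Q74.Diff.Rec
import Pool.Agent.Q74.Diff.TypeI
import Pool.Agent.Q74.Diff.TypeII

/-!
# Unbounded solutions of `x (n+1) = (α + x n) / (C x (n-1) + x (n-2))`

For `α = 1` and `C ≤ e ^ (-1000)` there is an unbounded solution.
-/

set_option autoImplicit false

namespace Pool.Agent.Results.MP_db9acb_an.Unbounded

open Pool.Agent.Q74.Diff Real

/-- For `α = 1` and every `0 < C ≤ e ^ (-1000)` the recursion has an unbounded positive solution
(`x n` is the term of index `n - 2`). -/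
theorem result (C : ℝ) (hC : 0 < C) (hCle : C ≤ exp (-1000)) :
    ∃ x : ℕ → ℝ, (∀ n, 0 < x n) ∧
      (∀ n, x (n + 3) = (1 + x (n + 2)) / (C * x (n + 1) + x n)) ∧
      ¬ BddAbove (Set.range x) := by
  set g : ℝ := -log C with hg
  have hg1 : 1000 ≤ g := by
    have : log C ≤ -1000 := by
      rw [log_le_iff_le_exp hC]
      exact hCle
    linarith
  have hexpg : exp (-g) = C := by rw [hg, neg_neg, exp_log hC]
  have hC1 : C ≤ 1 / 100000 := by
    have h1 : (100000 : ℝ) ≤ exp 1000 := by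
      have := quadratic_le_exp_of_nonneg (show (0 : ℝ) ≤ 1000 by norm_num)
      linarith
    calc C ≤ exp (-1000) := hCle
      _ = 1 / exp 1000 := by rw [exp_neg, one_div]
      _ ≤ 1 / 100000 := one_div_le_one_div_of_le (by norm_num) h1
  obtain ⟨x, hx0, hx1, hx2, hx⟩ :=
    exists_seq (fun a b c => (1 + c) / (C * b + a)) (1 / C ^ 20) (C ^ 2) (C ^ 30)
  have hpos : ∀ n, 0 < x n := by
    apply pos_of_rec
    · rw [hx0]; positivity
    · rw [hx1]; positivity
    · rw [hx2]; positivity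
    · intro n a b c
      rw [hx]
      positivity
  refine ⟨x, hpos, hx, ?_⟩
  have hmul : ∀ n, x (n + 3) * (C * x (n + 1) + x n) = 1 + x (n + 2) := by
    intro n
    have h1 := hpos n
    have h2 := hpos (n + 1)
    rw [hx n]
    field_simp
  set h : ℝ → ℝ := fun q => if q ≤ C ^ 2 then q / C ^ 2 else 2 with hh
  have hh0 : ∀ q, 0 < q → 0 ≤ h q := by
    intro q hq
    simp only [hh]
    split_ifs
    · positivity
    · norm_num
  have hh2 : ∀ q, h q ≤ 2 := by
    intro q
    simp only [hh]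
    split_ifs with h1
    · rw [div_le_iff₀ (by positivity)]
      nlinarith [pow_pos hC 2]
    · exact le_rfl
  set V : ℕ → ℝ := fun n => log (x n / x (n + 1)) - 20 / x n + 19 * h (x (n + 1)) with hV
  have hVle : ∀ n, V n ≤ log (x n / x (n + 1)) + 38 := by
    intro n
    have h1 : 0 < 20 / x n := div_pos (by norm_num) (hpos n)
    have h2 := hh2 (x (n + 1))
    simp only [hV]
    linarith
  have hratio : ∀ n, 10 * g + 38 ≤ V n → x (n + 1) ≤ C ^ 10 * x n := by
    intro n hn
    have h1 : 10 * g ≤ log (x n / x (n + 1)) := by linarith [hVle n]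
    rw [le_log_iff_exp_le (div_pos (hpos n) (hpos (n + 1))), le_div_iff₀ (hpos (n + 1))] at h1
    have h2 : C ^ 10 * exp (10 * g) = 1 := by
      rw [← hexpg, ← exp_nat_mul, ← exp_add]
      norm_num
    calc x (n + 1) = (C ^ 10 * exp (10 * g)) * x (n + 1) := by rw [h2]; ring
      _ = C ^ 10 * (exp (10 * g) * x (n + 1)) := by ring
      _ ≤ _ := by gcongr
  -- the section
  set Sec : ℕ → Prop := fun n => 1 / 8 ≤ x n ∧ x (n + 1) ≤ 2 ∧
    C * x n * x (n + 2) ≤ 9 * x (n + 1) ∧
    (C ^ 2 < x (n + 1) → x n * x (n + 2) ≤ 6 * C * x (n + 1)) with hSec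
  have stepI : ∀ n, Sec n → 10 * g + 38 ≤ V n → x (n + 1) ≤ C ^ 2 →
      Sec (n + 6) ∧ V n ≤ V (n + 6) ∧ x (n + 1) ≤ C * x (n + 7) := by
    intro n hS hVn hq
    obtain ⟨s1, s2, s3, s4⟩ := hS
    have e3 := hmul n
    have e4 : x (n + 4) * (C * x (n + 2) + x (n + 1)) = 1 + x (n + 3) := hmul (n + 1)
    have e5 : x (n + 5) * (C * x (n + 3) + x (n + 2)) = 1 + x (n + 4) := hmul (n + 2)
    have e6 : x (n + 6) * (C * x (n + 4) + x (n + 3)) = 1 + x (n + 5) := hmul (n + 3)
    have e7 : x (n + 7) * (C * x (n + 5) + x (n + 4)) = 1 + x (n + 6) := hmul (n + 4)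
    have e8 : x (n + 8) * (C * x (n + 6) + x (n + 5)) = 1 + x (n + 7) := hmul (n + 5)
    obtain ⟨A1, A2, A3, A4, A5, A6⟩ := typeI hC hC1 s1 (hpos _) (hpos _) (hpos _) (hpos _)
      (hpos _) (hpos _) (hpos _) (hpos _) e3 e4 e5 e6 e7 e8 hq s3 (hratio n hVn)
    have hp := hpos n
    have h6 := hpos (n + 6)
    have hp6 : x n ≤ x (n + 6) := by nlinarith
    refine ⟨⟨by linarith, A3, A4, A5⟩, ?_, A2⟩
    -- the potential
    have i1 : 10 / x n ≤ 20 / x n - 20 / x (n + 6) := by
      have : 20 / x (n + 6) ≤ 10 / x n := by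
        rw [div_le_div_iff₀ h6 hp]
        nlinarith
      have h2 : 20 / x n = 10 / x n + 10 / x n := by ring
      linarith
    have i2 : x (n + 1) / C ^ 2 ≤ h (x (n + 7)) - h (x (n + 1)) := by
      have hq0 := hpos (n + 1)
      have h7 := hpos (n + 7)
      have j1 : h (x (n + 1)) = x (n + 1) / C ^ 2 := by
        simp only [hh]
        rw [if_pos hq]
      have j2 : x (n + 1) / C ^ 2 ≤ 1 := by
        rw [div_le_iff₀ (by positivity)]
        linarith
      by_cases h2 : x (n + 7) ≤ C ^ 2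
      · have j3 : h (x (n + 7)) = x (n + 7) / C ^ 2 := by
          simp only [hh]
          rw [if_pos h2]
        rw [j1, j3, ← sub_div]
        gcongr
        nlinarith
      · have j3 : h (x (n + 7)) = 2 := by
          simp only [hh]
          rw [if_neg h2]
        rw [j1, j3]
        linarith
    show log (x n / x (n + 1)) - 20 / x n + 19 * h (x (n + 1)) ≤
      log (x (n + 6) / x (n + 7)) - 20 / x (n + 6) + 19 * h (x (n + 7))
    linarith
  have stepII : ∀ n, Sec n → 10 * g + 38 ≤ V n → C ^ 2 < x (n + 1) →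
      Sec (n + 7) ∧ V n + 1 ≤ V (n + 7) := by
    intro n hS hVn hq
    obtain ⟨s1, s2, s3, s4⟩ := hS
    have e3 := hmul n
    have e4 : x (n + 4) * (C * x (n + 2) + x (n + 1)) = 1 + x (n + 3) := hmul (n + 1)
    have e5 : x (n + 5) * (C * x (n + 3) + x (n + 2)) = 1 + x (n + 4) := hmul (n + 2)
    have e6 : x (n + 6) * (C * x (n + 4) + x (n + 3)) = 1 + x (n + 5) := hmul (n + 3)
    have e7 : x (n + 7) * (C * x (n + 5) + x (n + 4)) = 1 + x (n + 6) := hmul (n + 4)
    have e8 : x (n + 8) * (C * x (n + 6) + x (n + 5)) = 1 + x (n + 7) := hmul (n + 5)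
    have e9 : x (n + 9) * (C * x (n + 7) + x (n + 6)) = 1 + x (n + 8) := hmul (n + 6)
    obtain ⟨B1, B2, B3, B4⟩ := typeII hC hC1 (hpos _) (hpos _) (hpos _) (hpos _) (hpos _)
      (hpos _) (hpos _) (hpos _) (hpos _) (hpos _) e3 e4 e5 e6 e7 e8 e9 hq s2 (s4 hq)
      (hratio n hVn)
    have hp := hpos n
    have hq0 := hpos (n + 1)
    have h7 := hpos (n + 7)
    have h8 := hpos (n + 8)
    refine ⟨⟨B1, ?_, B3, fun hcon => absurd B2 (not_le.2 hcon)⟩, ?_⟩
    · show x (n + 8) ≤ 2
      nlinarith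
    have i1 : x n / x (n + 1) ≤ x (n + 7) / x (n + 8) * (252 * C) := by
      rw [div_mul_eq_mul_div, div_le_div_iff₀ hq0 h8]
      linarith
    have i2 := log_le_log (by positivity) i1
    rw [log_mul (by positivity) (by positivity), log_mul (by norm_num) hC.ne'] at i2
    have i3 : log 252 ≤ 251 := by
      have := log_le_sub_one_of_pos (show (0 : ℝ) < 252 by norm_num)
      linarith
    have i4 : 20 / x (n + 7) ≤ 160 := by
      rw [div_le_iff₀ h7]
      linarith
    have i5 := hh0 _ h8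
    have i6 := hVle n
    show V n + 1 ≤ log (x (n + 7) / x (n + 8)) - 20 / x (n + 7) + 19 * h (x (n + 8))
    linarith
  have reach : ∀ j : ℕ, ∀ n v, 10 * g + 38 ≤ v → Sec n → v ≤ V n → C ^ (j + 2) < x (n + 1) →
      ∃ m, Sec m ∧ v ≤ V m ∧ C ^ 2 < x (m + 1) := by
    intro j
    induction j with
    | zero =>
      intro n v _ hS hv hq
      exact ⟨n, hS, hv, by simpa using hq⟩
    | succ j ih =>
      intro n v hv0 hS hv hq
      by_cases hc : x (n + 1) ≤ C ^ 2
      · obtain ⟨a, b, c⟩ := stepI n hS (hv0.trans hv) hc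
        refine ih (n + 6) v hv0 a (hv.trans b) ?_
        show C ^ (j + 2) < x (n + 7)
        have h1 : C * C ^ (j + 2) < C * x (n + 7) := by
          calc C * C ^ (j + 2) = C ^ (j + 1 + 2) := by ring
            _ < x (n + 1) := hq
            _ ≤ _ := c
        exact lt_of_mul_lt_mul_left h1 hC.le
      · exact ⟨n, hS, hv, not_le.1 hc⟩
  have reach' : ∀ n v, 10 * g + 38 ≤ v → Sec n → v ≤ V n →
      ∃ m, Sec m ∧ v ≤ V m ∧ C ^ 2 < x (m + 1) := by
    intro n v hv0 hS hv
    obtain ⟨j, hj⟩ := exists_pow_lt_of_lt_one (hpos (n + 1)) (show C < 1 by linarith)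
    refine reach j n v hv0 hS hv (lt_of_le_of_lt ?_ hj)
    exact pow_le_pow_of_le_one hC.le (by linarith) (by omega)
  have key : ∀ k : ℕ, ∃ m, Sec m ∧ 10 * g + 38 + k ≤ V m ∧ C ^ 2 < x (m + 1) := by
    intro k
    induction k with
    | zero =>
      have hC20 : (1 : ℝ) ≤ 1 / C ^ 20 := by
        rw [le_div_iff₀ (by positivity), one_mul]
        exact pow_le_one₀ hC.le (by linarith)
      have hC2 : C ^ 2 ≤ 1 := pow_le_one₀ hC.le (by linarith)
      have y1 : x (0 + 1) = C ^ 2 := hx1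
      have y2 : x (0 + 2) = C ^ 30 := hx2
      apply reach' 0
      · push_cast
        linarith
      · refine ⟨?_, ?_, ?_, ?_⟩
        · rw [hx0]; linarith
        · rw [y1]; linarith
        · rw [hx0, y1, y2]
          have h1 : C * (1 / C ^ 20) * C ^ 30 = C ^ 9 * C ^ 2 := by
            field_simp
          rw [h1]
          have h2 : C ^ 9 ≤ 1 := pow_le_one₀ hC.le (by linarith)
          have : 0 < C ^ 2 := by positivity
          nlinarith
        · intro hcon
          rw [y1] at hcon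
          exact absurd hcon (lt_irrefl _)
      · show 10 * g + 38 + ((0 : ℕ) : ℝ) ≤ log (x 0 / x (0 + 1)) - 20 / x 0 + 19 * h (x (0 + 1))
        have h1 : log (x 0 / x (0 + 1)) = 22 * g := by
          rw [hx0, y1, div_div, log_div one_ne_zero (by positivity), log_one, ← pow_add, log_pow]
          rw [hg]
          push_cast
          ring
        have h2 : 20 / x 0 ≤ 20 := by
          rw [div_le_iff₀ (hpos 0), hx0]
          linarith
        have h3 := hh0 _ (hpos (0 + 1))
        rw [h1]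
        push_cast
        linarith
    | succ k ih =>
      obtain ⟨m, hS, hv, hq⟩ := ih
      have hk : (0 : ℝ) ≤ k := k.cast_nonneg
      obtain ⟨a, b⟩ := stepII m hS (by linarith) hq
      apply reach' (m + 7)
      · push_cast
        linarith
      · exact a
      · push_cast
        linarith
  rintro ⟨B, hB⟩
  obtain ⟨k, hk⟩ := exists_nat_gt (B / C ^ 2)
  obtain ⟨m, hS, hv, hq⟩ := key k
  have h1 : (k : ℝ) + 10 * g ≤ log (x m / x (m + 1)) := by linarith [hVle m]
  have h2 := log_le_sub_one_of_pos (div_pos (hpos m) (hpos (m + 1)))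
  have h3 : (k : ℝ) ≤ x m / x (m + 1) := by linarith
  rw [le_div_iff₀ (hpos (m + 1))] at h3
  rw [div_lt_iff₀ (by positivity)] at hk
  have h4 : x m ≤ B := hB ⟨m, rfl⟩
  have h5 : (k : ℝ) * C ^ 2 ≤ k * x (m + 1) := by gcongr
  linarith

end Pool.Agent.Results.MP_db9acb_an.Unbounded
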